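import Mathlib
import Pool.Agent.H27.Uab

set_option autoImplicit false

namespace Pool.Agent.Results.MP_45e0c4_an.NoSuperADP

open Filter Topology Set

/-- The closed unit ball of `X` with the relative weak topology. -/
abbrev WeakBall (𝕜 X : Type) [RCLike 𝕜] [NormedAddCommGroup X] [NormedSpace 𝕜 X] : Type :=
  {x : WeakSpace 𝕜 X // ‖(toWeakSpace 𝕜 X).symm x‖ ≤ 1}

/-- The super alternative Daugavet property. -/
def SuperADP (𝕜 X : Type) [RCLike 𝕜] [NormedAddCommGroup X] [NormedSpace 𝕜 X] : Prop :=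
  ∀ x : X, ‖x‖ = 1 → ∀ W : Set (WeakBall 𝕜 X), IsOpen W →
    (∃ y ∈ W, ‖(toWeakSpace 𝕜 X).symm y.1‖ = 1) →
    IsLUB {r : ℝ | ∃ y ∈ W, ∃ θ : 𝕜, ‖θ‖ = 1 ∧ r = ‖x + θ • (toWeakSpace 𝕜 X).symm y.1‖} 2

/-- No real or complex Banach space with an unconditional basis has the super ADP. -/
theorem result (𝕜 X : Type) [RCLike 𝕜] [NormedAddCommGroup X] [NormedSpace 𝕜 X] [CompleteSpace X]
    (b : UnconditionalSchauderBasis ℕ 𝕜 X) : ¬ SuperADP 𝕜 X := by
  intro h
  have h0 : ∀ n, b n ≠ 0 := fun n => b.linearIndependent.ne_zero n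
  refine Pool.Agent.H27.Uab.main b (fun x w B η hx hw hη => ?_) (norm_smul_inv_norm (𝕜 := 𝕜) (h0 0))
  have hc : Continuous fun y : WeakBall 𝕜 X => b.proj B ((toWeakSpace 𝕜 X).symm y.1) := by
    simp only [GeneralSchauderBasis.proj_apply]
    exact continuous_finsetSum _ fun n _ => ((WeakBilin.eval_continuous
      (topDualPairing 𝕜 X).flip (b.coord n)).comp continuous_subtype_val).smul continuous_const
  obtain ⟨n, hn⟩ := B.exists_notMem
  have hn0 := norm_pos_iff.2 (h0 n)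
  obtain ⟨t, -, ht⟩ : (1 : ℝ) ∈ (fun t : ℝ => ‖w + (t : 𝕜) • b n‖) '' Icc 0 (2 / ‖b n‖) := by
    refine intermediate_value_Icc (by positivity) (by fun_prop) ⟨by simpa using hw, ?_⟩
    have h1 := norm_sub_le (w + ((2 / ‖b n‖ : ℝ) : 𝕜) • b n) w
    rw [add_sub_cancel_left, norm_smul, RCLike.norm_ofReal, abs_of_pos (by positivity),
      div_mul_cancel₀ _ hn0.ne'] at h1
    linarith
  obtain ⟨_, ⟨y, hy, θ, hθ, rfl⟩, h4, -⟩ := (h x hx
    {y | ‖b.proj B ((toWeakSpace 𝕜 X).symm y.1) - b.proj B w‖ < η}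
    (isOpen_lt (hc.sub continuous_const).norm continuous_const)
    ⟨⟨toWeakSpace 𝕜 X (w + (t : 𝕜) • b n), ht.le⟩, by
      have : b.proj B (b n) = 0 := by rw [b.proj_apply_basis_mem, if_neg hn]
      show ‖b.proj B (w + (t : 𝕜) • b n) - b.proj B w‖ < η
      rw [map_add, map_smul, this]
      simpa using hη, ht⟩).exists_between (by linarith : 2 - η < 2)
  exact ⟨_, θ, y.2, hθ, hy, h4⟩

end Pool.Agent.Results.MP_45e0c4_an.NoSuperADP
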